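import Pool.Agent.Helper89.Hole.MDefs

/-!
Existence of generic parameters of Maker's block structure (problem MP_91a033_co).
-/

namespace KHole

namespace GenPar

/-- integer polynomial relations in a transcendental number -/
theorem coeff_zero {T : ℝ} (hT : Transcendental ℤ T) {K : Type*} (s : Finset K) (c : K → ℤ)
    (e : K → ℕ) (h : ∑ k ∈ s, (c k : ℝ) * T ^ e k = 0) (n : ℕ) :
    ∑ k ∈ s with e k = n, c k = 0 := by
  have hP : (∑ k ∈ s, Polynomial.C (c k) * Polynomial.X ^ e k : Polynomial ℤ) = 0 := by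
    by_contra hne
    apply hT
    refine ⟨_, hne, ?_⟩
    rw [map_sum]
    simpa using h
  have h2 := congrArg (fun P => Polynomial.coeff P n) hP
  simp only [Polynomial.finsetSum_coeff, Polynomial.coeff_C_mul, Polynomial.coeff_X_pow,
    Polynomial.coeff_zero] at h2
  rw [Finset.sum_filter]
  refine Eq.trans (Finset.sum_congr rfl (fun k _ => ?_)) h2
  by_cases hk : e k = n
  · simp [hk]
  · have : ¬ n = e k := fun h => hk h.symm
    simp [hk, this]

theorem digits_inj (n : ℕ) (w w' : Fin n → ℕ) (hw : ∀ i, w i ≤ 3) (hw' : ∀ i, w' i ≤ 3)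
    (h : ∑ i : Fin n, 4 ^ (i : ℕ) * w i = ∑ i : Fin n, 4 ^ (i : ℕ) * w' i) : w = w' := by
  induction n with
  | zero => exact Subsingleton.elim _ _
  | succ n ih =>
    rw [Fin.sum_univ_succ, Fin.sum_univ_succ] at h
    have h1 : ∀ v : Fin (n + 1) → ℕ, ∑ i : Fin n, 4 ^ ((Fin.succ i : Fin (n + 1)) : ℕ) * v i.succ =
        4 * ∑ i : Fin n, 4 ^ (i : ℕ) * v i.succ := by
      intro v
      rw [Finset.mul_sum]
      refine Finset.sum_congr rfl (fun i _ => ?_)
      rw [Fin.val_succ, pow_succ]; ring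
    rw [h1, h1] at h
    simp only [Fin.val_zero, pow_zero, one_mul] at h
    have h2 := hw 0
    have h3 := hw' 0
    have h4 : w 0 = w' 0 := by omega
    have h5 : ∑ i : Fin n, 4 ^ (i : ℕ) * w i.succ = ∑ i : Fin n, 4 ^ (i : ℕ) * w' i.succ := by
      omega
    have h6 := ih (fun i => w i.succ) (fun i => w' i.succ) (fun i => hw _) (fun i => hw' _) h5
    funext i
    refine Fin.cases h4 (fun j => congrFun h6 j) i

/-- monomials -/
noncomputable def mon {V : Type*} [Fintype V] (x : V → ℝ) (w : V → ℕ) : ℝ := ∏ v, x v ^ w v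

theorem mon_add {V : Type*} [Fintype V] (x : V → ℝ) (w w' : V → ℕ) :
    mon x (w + w') = mon x w * mon x w' := by
  unfold mon
  rw [← Finset.prod_mul_distrib]
  exact Finset.prod_congr rfl (fun v _ => by rw [Pi.add_apply, pow_add])

/-- independence of the numbers `x v` for monomials with exponents at most three -/
def Ind {V : Type} [Fintype V] [DecidableEq V] (x : V → ℝ) : Prop :=
  ∀ (K : Type) (s : Finset K) (c : K → ℤ) (w : K → V → ℕ), (∀ k ∈ s, ∀ v, w k v ≤ 3) →
    ∑ k ∈ s, (c k : ℝ) * mon x (w k) = 0 → ∀ w0 : V → ℕ, ∑ k ∈ s with w k = w0, c k = 0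

theorem exists_ind (V : Type) [Fintype V] [DecidableEq V] :
    ∃ x : V → ℝ, (∀ v, 0 < x v) ∧ Ind x := by
  obtain ⟨T, hT0, hT⟩ : ∃ T : ℝ, 0 < T ∧ Transcendental ℤ T := by
    have htr : Transcendental ℤ (liouvilleNumber ((2 : ℕ) : ℝ)) :=
      transcendental_liouvilleNumber (m := 2) le_rfl
    refine ⟨liouvilleNumber ((2 : ℕ) : ℝ), lt_of_le_of_ne ?_ ?_, htr⟩
    · exact tsum_nonneg (fun i => by positivity)
    · intro h0
      rw [← h0] at htr
      exact htr isAlgebraic_zero
  let e := Fintype.equivFin V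
  have hmon : ∀ w : V → ℕ, mon (fun v => T ^ (4 ^ (e v : ℕ))) w =
      T ^ (∑ i : Fin (Fintype.card V), 4 ^ (i : ℕ) * w (e.symm i)) := by
    intro w
    unfold mon
    rw [← Finset.prod_pow_eq_pow_sum, ← e.prod_comp]
    refine Finset.prod_congr rfl (fun v _ => ?_)
    rw [Equiv.symm_apply_apply, pow_mul]
  refine ⟨fun v => T ^ (4 ^ (e v : ℕ)), fun v => pow_pos hT0 _, ?_⟩
  intro K s c w hw h w0
  have h1 : ∑ k ∈ s, (c k : ℝ) *
      T ^ (∑ i : Fin (Fintype.card V), 4 ^ (i : ℕ) * w k (e.symm i)) = 0 := by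
    rw [← h]
    exact Finset.sum_congr rfl (fun k _ => by rw [hmon])
  by_cases hw0 : ∀ v, w0 v ≤ 3
  · have h2 := coeff_zero hT s c _ h1
      (∑ i : Fin (Fintype.card V), 4 ^ (i : ℕ) * w0 (e.symm i))
    rw [← h2]
    refine Finset.sum_congr (Finset.filter_congr (fun k hk => ?_)) (fun _ _ => rfl)
    constructor
    · rintro rfl; rfl
    · intro h3
      have h4 := digits_inj _ (fun i => w k (e.symm i)) (fun i => w0 (e.symm i))
        (fun i => hw k hk _) (fun i => hw0 _) h3
      funext v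
      have := congrFun h4 (e v)
      simpa using this
  · rw [Finset.filter_false_of_mem, Finset.sum_empty]
    intro k hk h3
    exact hw0 (fun v => h3 ▸ hw k hk v)

theorem Ind.mon_inj {V : Type} [Fintype V] [DecidableEq V] {x : V → ℝ} (hx : Ind x)
    {w w' : V → ℕ} (hw : ∀ v, w v ≤ 3) (hw' : ∀ v, w' v ≤ 3) (h : mon x w = mon x w') :
    w = w' := by
  by_contra hne
  have h1 := hx Bool Finset.univ (fun b => if b then 1 else -1) (fun b => if b then w else w')
    (by intro k _ v; cases k <;> simp [hw, hw']) (by simp [h]) w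
  have h2 : ¬ w' = w := fun h => hne h.symm
  simp [Finset.sum_filter, h2] at h1

variable {g r : ℕ}

/-- the variables -/
abbrev Vr (g r : ℕ) := Idx g r ⊕ Fin r ⊕ Fin r

/-- exponents of `U A` -/
def eU (A : Finset (Idx g r)) : Vr g r → ℕ :=
  Sum.elim (fun b => if b ∈ A then 1 else 0) (fun _ => 0)

/-- exponents of `α l` -/
def eα (l : Fin r) : Vr g r → ℕ :=
  Sum.elim (fun _ => 0) (Sum.elim (fun l' => if l' = l then 1 else 0) (fun _ => 0))

/-- exponents of `γ l` -/
def eγ (l : Fin r) : Vr g r → ℕ :=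
  Sum.elim (fun _ => 0) (Sum.elim (fun _ => 0) (fun l' => if l' = l then 1 else 0))

/-- the parameters -/
def par (x : Vr g r → ℝ) : Par g r where
  u b := x (Sum.inl b)
  α l := x (Sum.inr (Sum.inl l))
  γ l := x (Sum.inr (Sum.inr l))

theorem mon_eU (x : Vr g r → ℝ) (A : Finset (Idx g r)) : mon x (eU A) = (par x).U A := by
  unfold mon eU Par.U par
  simp only [Fintype.prod_sum_type, Sum.elim_inl, Sum.elim_inr, pow_zero, Finset.prod_const_one,
    mul_one]
  have h1 : ∀ b : Idx g r, x (Sum.inl b) ^ (if b ∈ A then 1 else 0) =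
      if b ∈ A then x (Sum.inl b) else 1 := by
    intro b
    by_cases hb : b ∈ A <;> simp [hb]
  simp only [h1]
  simp [Finset.prod_ite_mem]

theorem mon_eα (x : Vr g r → ℝ) (l : Fin r) : mon x (eα l) = (par x).α l := by
  unfold mon eα par
  simp [Fintype.prod_sum_type, pow_ite, Finset.prod_ite_eq']

theorem mon_eγ (x : Vr g r → ℝ) (l : Fin r) : mon x (eγ l) = (par x).γ l := by
  unfold mon eγ par
  simp [Fintype.prod_sum_type, pow_ite, Finset.prod_ite_eq']

theorem eU_le (A : Finset (Idx g r)) (v : Vr g r) : eU A v ≤ 1 := by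
  rcases v with b | l' | l' <;> simp only [eU, Sum.elim_inl, Sum.elim_inr] <;>
    first | omega | (split_ifs <;> omega)

theorem eα_le (l : Fin r) (v : Vr g r) : eα l v ≤ 1 := by
  rcases v with b | l' | l' <;> simp only [eα, Sum.elim_inl, Sum.elim_inr] <;>
    first | omega | (split_ifs <;> omega)

theorem eγ_le (l : Fin r) (v : Vr g r) : eγ l v ≤ 1 := by
  rcases v with b | l' | l' <;> simp only [eγ, Sum.elim_inl, Sum.elim_inr] <;>
    first | omega | (split_ifs <;> omega)

theorem mon_single (x : Vr g r → ℝ) (b : Idx g r) : mon x (eU {b}) = (par x).u b := by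
  rw [mon_eU]; simp [Par.U]

/-- the main extraction lemma -/
theorem key {x : Vr g r → ℝ} (hx : Ind x) {ι : Type} [Fintype ι] [DecidableEq ι]
    (q : ι → Vr g r → ℕ) (hq1 : ∀ i v, q i v ≤ 1) (hqα : ∀ i l, q i (Sum.inr (Sum.inl l)) = 0)
    (n : ι → Fin r → ℤ) (d : ι → Idx g r → ℤ)
    (h : ∑ i, mon x (q i) * (∑ l, (n i l : ℝ) * (par x).α l -
      ∑ b, (d i b : ℝ) * ((par x).γ b.1 * (par x).u b)) = 0) :
    (∀ l w, ∑ i with q i = w, n i l = 0) ∧
    ∀ w, ∑ ib : ι × Idx g r with q ib.1 + eγ ib.2.1 + eU {ib.2} = w, d ib.1 ib.2 = 0 := by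
  have h1 := hx (ι × (Fin r ⊕ Idx g r)) Finset.univ
    (fun k => Sum.elim (fun l => n k.1 l) (fun b => - d k.1 b) k.2)
    (fun k => Sum.elim (fun l => q k.1 + eα l) (fun b => q k.1 + eγ b.1 + eU {b}) k.2)
    (by
      rintro ⟨i, l | b⟩ _ v
      · have h1 := hq1 i v
        have h2 := eα_le l v
        simp only [Sum.elim_inl, Pi.add_apply]
        omega
      · have h1 := hq1 i v
        have h2 := eγ_le b.1 v
        have h3 := eU_le {b} v
        simp only [Sum.elim_inr, Pi.add_apply]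
        omega)
    (by
      rw [← h, Fintype.sum_prod_type]
      refine Finset.sum_congr rfl (fun i _ => ?_)
      rw [Fintype.sum_sum_type, mul_sub, Finset.mul_sum, Finset.mul_sum, sub_eq_add_neg,
        ← Finset.sum_neg_distrib]
      congr 1
      · refine Finset.sum_congr rfl (fun l _ => ?_)
        simp only [Sum.elim_inl, mon_add, mon_eα]
        ring
      · refine Finset.sum_congr rfl (fun b _ => ?_)
        simp only [Sum.elim_inr, mon_add, mon_eγ, mon_single]
        push_cast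
        ring)
  constructor
  · intro l w
    by_cases hw : ∀ l', w (Sum.inr (Sum.inl l')) = 0
    · have h2 := h1 (w + eα l)
      rw [Finset.sum_filter, Fintype.sum_prod_type] at h2
      rw [Finset.sum_filter]
      refine Eq.trans (Finset.sum_congr rfl (fun i _ => ?_)) h2
      rw [Fintype.sum_sum_type]
      have h3 : ∀ b : Idx g r, ¬ (q i + eγ b.1 + eU {b} = w + eα l) := by
        intro b hb
        have := congrFun hb (Sum.inr (Sum.inl l))
        simp [hqα, hw, eγ, eU, eα] at this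
      have h4 : ∀ l' : Fin r, (q i + eα l' = w + eα l) ↔ (l' = l ∧ q i = w) := by
        intro l'
        constructor
        · intro hb
          have h5 := congrFun hb (Sum.inr (Sum.inl l))
          simp only [Pi.add_apply, hqα, hw, eα, Sum.elim_inr, Sum.elim_inl] at h5
          have h6 : l' = l := by
            by_contra hne
            have : ¬ l = l' := fun h => hne h.symm
            simp [this] at h5
          subst h6
          exact ⟨rfl, add_right_cancel hb⟩
        · rintro ⟨rfl, rfl⟩; rfl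
      simp only [Sum.elim_inl, Sum.elim_inr, h3, h4, if_false, Finset.sum_const_zero, add_zero]
      by_cases hqi : q i = w
      · simp [hqi]
      · simp [hqi]
    · rw [Finset.filter_false_of_mem, Finset.sum_empty]
      rintro i _ rfl
      exact hw (hqα i)
  · intro w
    by_cases hw : ∀ l', w (Sum.inr (Sum.inl l')) = 0
    · have h2 := h1 w
      rw [Finset.sum_filter, Fintype.sum_prod_type] at h2
      rw [Finset.sum_filter, Fintype.sum_prod_type, ← neg_eq_zero, ← Finset.sum_neg_distrib]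
      refine Eq.trans (Finset.sum_congr rfl (fun i _ => ?_)) h2
      rw [Fintype.sum_sum_type, ← Finset.sum_neg_distrib]
      have h4 : ∀ l' : Fin r, ¬ (q i + eα l' = w) := by
        intro l' hb
        have h5 := congrFun hb (Sum.inr (Sum.inl l'))
        simp [hqα, hw, eα] at h5
      simp only [Sum.elim_inl, Sum.elim_inr, h4, if_false, Finset.sum_const_zero, zero_add]
      refine Finset.sum_congr rfl (fun b _ => ?_)
      split_ifs <;> simp
    · rw [Finset.filter_false_of_mem, Finset.sum_empty]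
      rintro ib _ hib
      apply hw
      intro l'
      have := congrFun hib (Sum.inr (Sum.inl l'))
      simp [hqα, eγ, eU] at this
      exact this.symm

/-- number of elements in a block -/
def cnt (B : Finset (Idx g r)) (l : Fin r) : ℤ := ((B.filter (fun b => b.1 = l)).card : ℤ)

/-- characteristic function -/
def chi (B : Finset (Idx g r)) (b : Idx g r) : ℤ := if b ∈ B then 1 else 0

theorem V_eq (p : Par g r) (B : Finset (Idx g r)) :
    p.V B = ∑ l, (cnt B l : ℝ) * p.α l - ∑ b, (chi B b : ℝ) * (p.γ b.1 * p.u b) := by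
  unfold Par.V Par.v
  rw [Finset.sum_sub_distrib]
  congr 1
  · rw [← Finset.sum_fiberwise_of_maps_to (s := B) (t := Finset.univ) (g := fun b => b.1)
      (fun _ _ => Finset.mem_univ _)]
    refine Finset.sum_congr rfl (fun l _ => ?_)
    rw [Finset.sum_congr rfl (g := fun _ => p.α l), Finset.sum_const, nsmul_eq_mul]
    · simp [cnt]
    · intro b hb
      rw [(Finset.mem_filter.1 hb).2]
  · simp [chi, Finset.sum_ite_mem]

theorem chi_eq_iff {B B' : Finset (Idx g r)} {b : Idx g r} :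
    chi B b = chi B' b ↔ (b ∈ B ↔ b ∈ B') := by
  unfold chi
  by_cases h1 : b ∈ B <;> by_cases h2 : b ∈ B' <;> simp [h1, h2]

theorem eU_inj {A A' : Finset (Idx g r)} (h : eU A = eU A') : A = A' := by
  ext b
  have := congrFun h (Sum.inl b)
  by_cases h1 : b ∈ A <;> by_cases h2 : b ∈ A' <;> simp [eU, h1, h2] at this ⊢

theorem eγU_inj {l l' : Fin r} {A A' : Finset (Idx g r)} (h : eγ l + eU A = eγ l' + eU A') :
    l = l' ∧ A = A' := by
  have h1 : l = l' := by
    have := congrFun h (Sum.inr (Sum.inr l))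
    by_contra hne
    simp [eγ, eU, hne] at this
  subst h1
  exact ⟨rfl, eU_inj (add_left_cancel h)⟩

/-- relation for a pair -/
theorem key1 {x : Vr g r → ℝ} (hx : Ind x) (n : Fin r → ℤ) (B B' : Finset (Idx g r))
    (h : ∑ l, (n l : ℝ) * (par x).α l + ((par x).V B - (par x).V B') = 0) :
    B = B' ∧ ∀ l, n l = 0 := by
  obtain ⟨h1, h2⟩ := key hx (ι := Unit) (fun _ _ => 0) (by simp) (by simp)
    (fun _ l => n l + cnt B l - cnt B' l) (fun _ b => chi B b - chi B' b) (by
      simp only [Finset.univ_unique, Finset.sum_singleton]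
      have h3 : mon x (fun _ : Vr g r => 0) = 1 := by simp [mon]
      rw [h3, one_mul, ← h, V_eq, V_eq]
      push_cast
      simp only [add_mul, sub_mul, Finset.sum_add_distrib, Finset.sum_sub_distrib]
      ring)
  have hB : B = B' := by
    ext b
    have h3 := h2 (eγ b.1 + eU {b})
    rw [Finset.sum_filter, Fintype.sum_prod_type] at h3
    simp only [Finset.univ_unique, Finset.sum_singleton] at h3
    rw [Finset.sum_eq_single b] at h3
    · have h4 : (fun _ : Vr g r => 0) + eγ b.1 + eU {b} = eγ b.1 + eU {b} := by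
        rw [add_assoc]; exact zero_add _
      rw [if_pos h4] at h3
      exact chi_eq_iff.1 (by linarith)
    · intro b' _ hb'
      rw [if_neg]
      intro h4
      have h5 : eγ b'.1 + eU {b'} = eγ b.1 + eU {b} := by
        rw [← h4, add_assoc]; exact (zero_add _).symm
      exact hb' (Finset.singleton_injective (eγU_inj h5).2)
    · simp
  refine ⟨hB, fun l => ?_⟩
  have h3 := h1 l (fun _ => 0)
  simp only [Finset.filter_true, Finset.univ_unique, Finset.sum_singleton, hB] at h3
  linarith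

/-- relation for a triple -/
theorem key3 {x : Vr g r → ℝ} (hx : Ind x) (q : Fin 3 → Vr g r → ℕ)
    (hq1 : ∀ i v, q i v ≤ 1) (hqα : ∀ i l, q i (Sum.inr (Sum.inl l)) = 0)
    (m : Fin 3 → Fin r → ℤ) (B : Fin 3 → Finset (Idx g r)) (Q : Fin 3 → ℝ)
    (hQ : ∀ i, Q i = ∑ l, (m i l : ℝ) * (par x).α l + (par x).V (B i))
    (h : ∑ i, mon x (q i) * (Q (i + 1) - Q (i + 2)) = 0) :
    (∀ l w, ∑ i with q i = w, ((m (i + 1) l + cnt (B (i + 1)) l) -
      (m (i + 2) l + cnt (B (i + 2)) l)) = 0) ∧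
    ∀ w, ∑ ib : Fin 3 × Idx g r with q ib.1 + eγ ib.2.1 + eU {ib.2} = w,
      (chi (B (ib.1 + 1)) ib.2 - chi (B (ib.1 + 2)) ib.2) = 0 := by
  refine key hx q hq1 hqα
    (fun i l => (m (i + 1) l + cnt (B (i + 1)) l) - (m (i + 2) l + cnt (B (i + 2)) l))
    (fun i b => chi (B (i + 1)) b - chi (B (i + 2)) b) ?_
  rw [← h]
  refine Finset.sum_congr rfl (fun i _ => ?_)
  congr 1
  rw [hQ, hQ, V_eq, V_eq]
  push_cast
  simp only [add_mul, sub_mul, Finset.sum_add_distrib, Finset.sum_sub_distrib]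
  ring

/-- a nonzero term is accompanied by another one -/
theorem other {ι : Type} [Fintype ι] [DecidableEq ι] (q : ι → Vr g r → ℕ)
    (d : ι → Idx g r → ℤ)
    (h : ∀ w, ∑ ib : ι × Idx g r with q ib.1 + eγ ib.2.1 + eU {ib.2} = w, d ib.1 ib.2 = 0)
    (i : ι) (b : Idx g r) (hd : d i b ≠ 0) :
    ∃ i' b', (i', b') ≠ (i, b) ∧ q i' + eγ b'.1 + eU {b'} = q i + eγ b.1 + eU {b} ∧
      d i' b' ≠ 0 := by
  by_contra hcon
  push Not at hcon
  have h1 := h (q i + eγ b.1 + eU {b})
  rw [Finset.sum_filter, Finset.sum_eq_single (i, b)] at h1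
  · simp at h1
    exact hd h1
  · rintro ⟨i', b'⟩ _ hne
    split_ifs with h2
    · exact hcon i' b' hne h2
    · rfl
  · simp

theorem fin3_cases (o i : Fin 3) : i = o ∨ i = o + 1 ∨ i = o + 2 := by
  revert o i; decide

theorem fin3_a (o : Fin 3) : o + 1 + 1 = o + 2 := by revert o; decide
theorem fin3_b (o : Fin 3) : o + 1 + 2 = o := by revert o; decide
theorem fin3_c (o : Fin 3) : o + 2 + 1 = o := by revert o; decide
theorem fin3_d (o : Fin 3) : o + 2 + 2 = o + 1 := by revert o; decide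
theorem fin3_ne1 (o : Fin 3) : o + 1 ≠ o := by revert o; decide
theorem fin3_ne2 (o : Fin 3) : o + 2 ≠ o := by revert o; decide
theorem fin3_ne3 (o : Fin 3) : o + 1 ≠ o + 2 := by revert o; decide

theorem exchange {A A' : Finset (Idx g r)} {b b' : Idx g r}
    (h : eU A' + eγ b'.1 + eU {b'} = eU A + eγ b.1 + eU {b}) (hne : b' ≠ b) :
    b'.1 = b.1 ∧ b ∈ A' ∧ b ∉ A ∧ b' ∈ A ∧ b' ∉ A' ∧ A = insert b' (A'.erase b) := by
  have h1 : b'.1 = b.1 := by
    have := congrFun h (Sum.inr (Sum.inr b.1))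
    by_contra hne
    have h2 : ¬ b.1 = b'.1 := fun h => hne h.symm
    simp [eγ, eU, h2] at this
  have h2 : eU A' + eU {b'} = eU A + eU {b} := by
    rw [h1, add_right_comm, add_right_comm (eU A)] at h
    exact add_right_cancel h
  have h3 : ∀ a, (if a ∈ A' then 1 else 0) + (if a = b' then 1 else 0) =
      (if a ∈ A then 1 else 0) + (if a = b then 1 else 0) := by
    intro a
    have := congrFun h2 (Sum.inl a)
    simpa [eU] using this
  have h4 := h3 b
  have h5 := h3 b'
  have hne' : ¬ b = b' := fun h => hne h.symm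
  simp only [hne, hne', if_true, if_false] at h4 h5
  have h6 : b ∈ A' ∧ b ∉ A := by
    by_cases ha : b ∈ A <;> by_cases hb : b ∈ A' <;> simp [ha, hb] at h4 ⊢
  have h7 : b' ∈ A ∧ b' ∉ A' := by
    by_cases ha : b' ∈ A <;> by_cases hb : b' ∈ A' <;> simp [ha, hb] at h5 ⊢
  refine ⟨h1, h6.1, h6.2, h7.1, h7.2, ?_⟩
  ext a
  rw [Finset.mem_insert, Finset.mem_erase]
  by_cases ha : a = b
  · subst ha
    simp [h6, hne']
  · by_cases hb : a = b'
    · subst hb
      simp [h7]
    · have h8 := h3 a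
      simp only [ha, hb, if_false, add_zero] at h8
      by_cases hc : a ∈ A <;> by_cases hd : a ∈ A' <;> simp [ha, hb, hc, hd] at h8 ⊢

/-- three concurrent lines of the grid -/
theorem claimT {x : Vr g r → ℝ} (hx : Ind x) (A B : Fin 3 → Finset (Idx g r))
    (hA : Function.Injective A) (hB : Function.Injective B)
    (h : ∑ i, (par x).U (A i) * ((par x).V (B (i + 1)) - (par x).V (B (i + 2))) = 0) :
    ∃ (W : Finset (Idx g r)) (j : Fin r), ∀ i, ∃ k : Idx g r, k ∉ W ∧ k.1 = j ∧
      A i = insert k W := by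
  obtain ⟨-, h2⟩ := key3 hx (fun i => eU (A i)) (fun i v => eU_le _ _)
    (by intro i l; simp [eU]) (fun _ _ => 0) B (fun i => (par x).V (B i)) (by simp)
    (by simpa [mon_eU] using h)
  have hb : ∃ b o, (b ∈ B (o + 1) ↔ b ∈ B (o + 2)) ∧ ¬ (b ∈ B o ↔ b ∈ B (o + 1)) := by
    have hne : B 0 ≠ B 1 := fun h => by
      have := hB h
      exact absurd this (by decide)
    obtain ⟨b, hb⟩ : ∃ b, ¬ (b ∈ B 0 ↔ b ∈ B 1) := by
      by_contra hcon
      push Not at hcon
      exact hne (Finset.ext hcon)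
    refine ⟨b, ?_⟩
    by_cases h1 : (b ∈ B 1 ↔ b ∈ B 2)
    · exact ⟨0, h1, hb⟩
    · refine ⟨1, ?_, h1⟩
      show (b ∈ B 2 ↔ b ∈ B 0)
      tauto
  obtain ⟨b, o, hbo1, hbo2⟩ := hb
  have hd := other (fun i => eU (A i)) (fun i b => chi (B (i + 1)) b - chi (B (i + 2)) b) h2
  have hd1 : chi (B (o + 1 + 1)) b - chi (B (o + 1 + 2)) b ≠ 0 := by
    rw [fin3_a, fin3_b]
    intro h3
    have h4 : chi (B (o + 2)) b = chi (B o) b := by linarith
    have h5 := chi_eq_iff.1 h4
    tauto
  have hd2 : chi (B (o + 2 + 1)) b - chi (B (o + 2 + 2)) b ≠ 0 := by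
    rw [fin3_c, fin3_d]
    intro h3
    have h4 : chi (B o) b = chi (B (o + 1)) b := by linarith
    exact hbo2 (chi_eq_iff.1 h4)
  obtain ⟨i1, b1, hne1, he1, -⟩ := hd (o + 1) b hd1
  obtain ⟨i2, b2, hne2, he2, -⟩ := hd (o + 2) b hd2
  have hb1 : b1 ≠ b := by
    rintro rfl
    have := add_right_cancel (add_right_cancel he1)
    exact hne1 (Prod.ext (hA (eU_inj this)) rfl)
  have hb2 : b2 ≠ b := by
    rintro rfl
    have := add_right_cancel (add_right_cancel he2)
    exact hne2 (Prod.ext (hA (eU_inj this)) rfl)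
  obtain ⟨a1, a2, a3, a4, a5, a6⟩ := exchange he1 hb1
  obtain ⟨c1, c2, c3, c4, c5, c6⟩ := exchange he2 hb2
  have hi1 : i1 = o := by
    rcases fin3_cases o i1 with h | h | h
    · exact h
    · rw [h] at a2; exact absurd a2 a3
    · rw [h] at a2; exact absurd a2 c3
  have hi2 : i2 = o := by
    rcases fin3_cases o i2 with h | h | h
    · exact h
    · rw [h] at c2; exact absurd c2 a3
    · rw [h] at c2; exact absurd c2 c3
  subst hi1
  subst hi2
  refine ⟨(A i2).erase b, b.1, fun i => ?_⟩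
  rcases fin3_cases i2 i with rfl | rfl | rfl
  · exact ⟨b, by simp, rfl, (Finset.insert_erase a2).symm⟩
  · exact ⟨b1, fun h => a5 (Finset.mem_of_mem_erase h), a1, a6⟩
  · exact ⟨b2, fun h => c5 (Finset.mem_of_mem_erase h), c1, c6⟩

theorem insert_inter {W : Finset (Idx g r)} {k k' : Idx g r}
    (hne : insert k W ≠ insert k' W) : insert k W ∩ insert k' W = W := by
  have h : k ≠ k' := by rintro rfl; exact hne rfl
  ext a
  simp only [Finset.mem_inter, Finset.mem_insert]
  constructor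
  · rintro ⟨h1 | h1, h2 | h2⟩
    · exact absurd (h1.symm.trans h2) h
    · exact h2
    · exact h1
    · exact h1
  · intro h1; exact ⟨Or.inr h1, Or.inr h1⟩

/-- concurrent grid lines -/
theorem conc {x : Vr g r → ℝ} (hx : Ind x) (hg : 2 ≤ g)
    (L : Finset (Finset (Idx g r) × Finset (Idx g r)))
    (hL : ∀ l ∈ L, ∀ l' ∈ L, l ≠ l' → l.1 ≠ l'.1 ∧ l.2 ≠ l'.2)
    (h : ∀ l₁ ∈ L, ∀ l₂ ∈ L, ∀ l₃ ∈ L,
      (par x).U l₁.1 * ((par x).V l₂.2 - (par x).V l₃.2) +
      (par x).U l₂.1 * ((par x).V l₃.2 - (par x).V l₁.2) +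
      (par x).U l₃.1 * ((par x).V l₁.2 - (par x).V l₂.2) = 0) : L.card ≤ g := by
  by_cases hc : L.card ≤ 2
  · omega
  push Not at hc
  obtain ⟨l1, h1, l2, h2, h12⟩ := Finset.one_lt_card.1 (lt_trans one_lt_two hc)
  have hT : ∀ l3 ∈ L, l3 ≠ l1 → l3 ≠ l2 → ∃ (W : Finset (Idx g r)) (j : Fin r),
      (∃ k : Idx g r, k ∉ W ∧ k.1 = j ∧ l1.1 = insert k W) ∧
      (∃ k : Idx g r, k ∉ W ∧ k.1 = j ∧ l2.1 = insert k W) ∧
      (∃ k : Idx g r, k ∉ W ∧ k.1 = j ∧ l3.1 = insert k W) := by
    intro l3 h3 h31 h32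
    have hinj : ∀ f : Finset (Idx g r) × Finset (Idx g r) → Finset (Idx g r),
        (∀ l ∈ L, ∀ l' ∈ L, l ≠ l' → f l ≠ f l') →
        Function.Injective (fun i : Fin 3 => f (![l1, l2, l3] i)) := by
      intro f hf i i' hii
      by_contra hne
      fin_cases i <;> fin_cases i' <;>
        simp only [Fin.zero_eta, Fin.mk_one, Fin.reduceFinMk, Fin.isValue,
          not_true_eq_false, Matrix.cons_val_zero, Matrix.cons_val_one, Matrix.cons_val] at hii hne
      · exact hf _ h1 _ h2 h12 hii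
      · exact hf _ h1 _ h3 h31.symm hii
      · exact hf _ h2 _ h1 h12.symm hii
      · exact hf _ h2 _ h3 h32.symm hii
      · exact hf _ h3 _ h1 h31 hii
      · exact hf _ h3 _ h2 h32 hii
    obtain ⟨W, j, hW⟩ := claimT hx (fun i => (![l1, l2, l3] i).1) (fun i => (![l1, l2, l3] i).2)
      (hinj Prod.fst (fun l hl l' hl' hne => (hL l hl l' hl' hne).1))
      (hinj Prod.snd (fun l hl l' hl' hne => (hL l hl l' hl' hne).2)) (by
        rw [Fin.sum_univ_three]
        exact h l1 h1 l2 h2 l3 h3)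
    exact ⟨W, j, hW 0, hW 1, hW 2⟩
  -- a third line
  obtain ⟨l3, h3, h31, h32⟩ : ∃ l3 ∈ L, l3 ≠ l1 ∧ l3 ≠ l2 := by
    have : 0 < ((L.erase l1).erase l2).card := by
      rw [Finset.card_erase_of_mem (Finset.mem_erase.2 ⟨h12.symm, h2⟩),
        Finset.card_erase_of_mem h1]
      omega
    obtain ⟨l3, h3⟩ := Finset.card_pos.1 this
    rw [Finset.mem_erase, Finset.mem_erase] at h3
    exact ⟨l3, h3.2.2, h3.2.1, h3.1⟩
  obtain ⟨W, j, ⟨k1, hk1, hj1, e1⟩, ⟨k2, hk2, hj2, e2⟩, -⟩ := hT l3 h3 h31 h32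
  have hne12 : l1.1 ≠ l2.1 := (hL l1 h1 l2 h2 h12).1
  have hW : l1.1 ∩ l2.1 = W := by
    rw [e1, e2]
    exact insert_inter (by rw [← e1, ← e2]; exact hne12)
  have hall : ∀ l ∈ L, ∃ k : Idx g r, k.1 = j ∧ l.1 = insert k W := by
    intro l hl
    by_cases hl1 : l = l1
    · subst hl1; exact ⟨k1, hj1, e1⟩
    by_cases hl2 : l = l2
    · subst hl2; exact ⟨k2, hj2, e2⟩
    obtain ⟨W', j', ⟨k1', hk1', hj1', e1'⟩, ⟨k2', hk2', hj2', e2'⟩, k3, hk3, hj3, e3⟩ :=
      hT l hl hl1 hl2
    have hW' : l1.1 ∩ l2.1 = W' := by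
      rw [e1', e2']
      exact insert_inter (by rw [← e1', ← e2']; exact hne12)
    have hWW : W' = W := hW'.symm.trans hW
    subst hWW
    have hk : k1' = k1 := by
      have h5 : k1' ∈ insert k1 W' := by rw [← e1, e1']; exact Finset.mem_insert_self _ _
      rcases Finset.mem_insert.1 h5 with h6 | h6
      · exact h6
      · exact absurd h6 hk1'
    exact ⟨k3, by rw [hj3, ← hj1', hk, hj1], e3⟩
  have : Nonempty (Idx g r) := ⟨k1⟩
  choose! k hkj hkW using hall
  have hinj : Set.InjOn k (L : Set (Finset (Idx g r) × Finset (Idx g r))) := by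
    intro l hl l' hl' hkk
    by_contra hne
    apply (hL l hl l' hl' hne).1
    rw [hkW l hl, hkW l' hl', hkk]
  calc L.card = (L.image k).card := (Finset.card_image_of_injOn hinj).symm
    _ ≤ ((Finset.univ : Finset (Fin g)).image (fun i => (j, i))).card := by
        apply Finset.card_le_card
        intro a ha
        obtain ⟨l, hl, rfl⟩ := Finset.mem_image.1 ha
        exact Finset.mem_image.2 ⟨(k l).2, Finset.mem_univ _, Prod.ext (hkj l hl).symm rfl⟩
    _ ≤ (Finset.univ : Finset (Fin g)).card := Finset.card_image_le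
    _ = g := by simp

theorem U_pos {x : Vr g r → ℝ} (hx0 : ∀ v, 0 < x v) (A : Finset (Idx g r)) :
    0 < (par x).U A := Finset.prod_pos (fun _ _ => hx0 _)

theorem xlevel {x : Vr g r → ℝ} (hx0 : ∀ v, 0 < x v) (hx : Ind x) (j j' : Fin r)
    (A A' : Finset (Idx g r)) (h : (par x).γ j / (par x).U A = (par x).γ j' / (par x).U A') :
    j = j' ∧ A = A' := by
  rw [div_eq_div_iff (U_pos hx0 A).ne' (U_pos hx0 A').ne'] at h
  have h1 : mon x (eγ j + eU A') = mon x (eγ j' + eU A) := by
    rw [mon_add, mon_add, mon_eγ, mon_eγ, mon_eU, mon_eU]; exact h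
  have h2 := hx.mon_inj (fun v => by
    have := eγ_le j v
    have := eU_le A' v
    simp only [Pi.add_apply]; omega) (fun v => by
    have := eγ_le j' v
    have := eU_le A v
    simp only [Pi.add_apply]; omega) h1
  obtain ⟨h3, h4⟩ := eγU_inj h2
  exact ⟨h3, h4.symm⟩

theorem ylevel {x : Vr g r → ℝ} (hx : Ind x) (j j' : Fin r)
    (B B' : Finset (Idx g r))
    (h : (par x).α j + (par x).V B = (par x).α j' + (par x).V B') : j = j' ∧ B = B' := by
  obtain ⟨h1, h2⟩ := key1 hx (fun l => (if l = j then 1 else 0) - (if l = j' then 1 else 0)) B B'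
    (by
      have h1 : ∑ l, (((if l = j then 1 else 0) - (if l = j' then 1 else 0) : ℤ) : ℝ) *
          (par x).α l = (par x).α j - (par x).α j' := by
        push_cast
        simp [sub_mul, Finset.sum_sub_distrib, ite_mul]
      rw [h1]; linarith)
  refine ⟨?_, h1⟩
  have h3 := h2 j
  by_contra hne
  simp [hne] at h3

theorem cand_on {x : Vr g r → ℝ} (hx0 : ∀ v, 0 < x v) {j : Fin r} {A B : Finset (Idx g r)}
    {b : Idx g r} (hb : b.1 = j) (hA : b ∉ A) (hB : b ∉ B) :
    (par x).α j + (par x).V B =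
      (par x).U (insert b A) * ((par x).γ j / (par x).U A) + (par x).V (insert b B) := by
  have h1 : (par x).U (insert b A) = (par x).u b * (par x).U A := Finset.prod_insert hA
  have h2 : (par x).V (insert b B) = (par x).v b + (par x).V B := Finset.sum_insert hB
  have h3 := (U_pos hx0 A).ne'
  rw [h1, h2, Par.v, hb]
  field_simp
  ring

theorem cancel3 {V : Type} {q a b c d : V → ℕ} (h : q + a + b = q + c + d) :
    a + b = c + d := by
  rw [add_assoc, add_assoc] at h
  exact add_left_cancel h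

theorem star_aux {A A' : Finset (Idx g r)} {b1 b2 : Idx g r} (hne : b1 ≠ b2)
    (h : ∀ a, (if a ∈ A' then 0 else 1) + (if a = b1 then 1 else 0) =
      (if a ∈ A then 0 else 1) + (if a = b2 then 1 else 0)) : insert b1 A = insert b2 A' := by
  ext a
  rw [Finset.mem_insert, Finset.mem_insert]
  have h1 := h a
  by_cases ha : a = b1
  · have hb : ¬ a = b2 := fun h => hne (ha.symm.trans h)
    rw [if_pos ha, if_neg hb] at h1
    have h2 : a ∈ A' := by
      by_contra h3
      rw [if_neg h3] at h1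
      split_ifs at h1
      all_goals omega
    exact ⟨fun _ => Or.inr h2, fun _ => Or.inl ha⟩
  · rw [if_neg ha] at h1
    by_cases hb : a = b2
    · rw [if_pos hb] at h1
      have h2 : a ∈ A := by
        by_contra h3
        rw [if_neg h3] at h1
        split_ifs at h1
        all_goals omega
      exact ⟨fun _ => Or.inl hb, fun _ => Or.inr h2⟩
    · rw [if_neg hb] at h1
      by_cases h3 : a ∈ A <;> by_cases h4 : a ∈ A' <;> simp only [h3, h4, if_true, if_false] at h1 <;>
        first | (exact absurd h1 (by omega)) | tauto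

/-- triples of candidates on a common line -/
theorem claimS {x : Vr g r → ℝ} (hx0 : ∀ v, 0 < x v) (hx : Ind x) {μ ν : ℝ} (hμ : μ ≠ 0)
    (hgrid : ∀ A B, ¬ (μ = (par x).U A ∧ ν = (par x).V B))
    (κ : Fin 3 → Fin r × Finset (Idx g r) × Finset (Idx g r)) (hκ : Function.Injective κ)
    (hA : ∀ i, Free (κ i).1 (κ i).2.1) (hB : ∀ i, Free (κ i).1 (κ i).2.2)
    (hon : ∀ i, (par x).α (κ i).1 + (par x).V (κ i).2.2 =
      μ * ((par x).γ (κ i).1 / (par x).U (κ i).2.1) + ν) (i i' : Fin 3) :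
    (κ i).1 = (κ i').1 := by
  -- distinct candidates have distinct coordinates
  have hxd : ∀ i i', (κ i).1 = (κ i').1 → (κ i).2.1 = (κ i').2.1 → i = i' := by
    intro i i' h1 h2
    apply hκ
    have h3 : (par x).α (κ i).1 + (par x).V (κ i).2.2 =
        (par x).α (κ i').1 + (par x).V (κ i').2.2 := by rw [hon, hon, h1, h2]
    exact Prod.ext h1 (Prod.ext h2 (ylevel hx _ _ _ _ h3).2)
  have hyd : ∀ i i', (κ i).1 = (κ i').1 → (κ i).2.2 = (κ i').2.2 → i = i' := by
    intro i i' h1 h2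
    apply hκ
    have h3 : μ * ((par x).γ (κ i).1 / (par x).U (κ i).2.1) + ν =
        μ * ((par x).γ (κ i').1 / (par x).U (κ i').2.1) + ν := by rw [← hon, ← hon, h1, h2]
    have h4 : (par x).γ (κ i).1 / (par x).U (κ i).2.1 =
        (par x).γ (κ i').1 / (par x).U (κ i').2.1 := by
      have := add_right_cancel h3
      exact mul_left_cancel₀ hμ this
    exact Prod.ext h1 (Prod.ext (xlevel hx0 hx _ _ _ _ h4).2 h2)
  set q : Fin 3 → Vr g r → ℕ := fun i => eγ (κ i).1 + eU ((κ i).2.1)ᶜ with hq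
  have hqinj : Function.Injective q := by
    intro i i' h
    obtain ⟨h1, h2⟩ := eγU_inj h
    exact hxd i i' h1 (compl_injective h2)
  have hmon : ∀ i, mon x (q i) = ((par x).γ (κ i).1 / (par x).U (κ i).2.1) *
      (par x).U Finset.univ := by
    intro i
    have h1 : (par x).U Finset.univ = (par x).U (κ i).2.1 * (par x).U ((κ i).2.1)ᶜ :=
      (Finset.prod_mul_prod_compl _ _).symm
    have h2 := (U_pos hx0 (κ i).2.1).ne'
    rw [hq, h1]
    simp only [mon_add, mon_eγ, mon_eU]
    field_simp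
  obtain ⟨hN, hR⟩ := key3 hx q (by
      intro i v
      rcases v with b | l | l
      · have := eU_le ((κ i).2.1)ᶜ (Sum.inl b)
        simpa [hq, eγ] using this
      · simp [hq, eγ, eU]
      · have := eγ_le (κ i).1 (Sum.inr (Sum.inr l) : Vr g r)
        simpa [hq, eU] using this) (by
      intro i l
      simp [hq, eγ, eU])
    (fun i l => if l = (κ i).1 then 1 else 0) (fun i => (κ i).2.2)
    (fun i => (par x).α (κ i).1 + (par x).V (κ i).2.2) (by
      intro i
      simp [ite_mul]) (by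
      rw [Fin.sum_univ_three]
      simp only [hmon, hon]
      have e1 : (0 : Fin 3) + 1 = 1 := rfl
      have e2 : (0 : Fin 3) + 2 = 2 := rfl
      have e3 : (1 : Fin 3) + 1 = 2 := rfl
      have e4 : (1 : Fin 3) + 2 = 0 := rfl
      have e5 : (2 : Fin 3) + 1 = 0 := rfl
      have e6 : (2 : Fin 3) + 2 = 1 := rfl
      rw [e1, e2, e3, e4, e5, e6]
      ring)
  have hN1 : ∀ i l, (if l = (κ (i + 1)).1 then 1 else 0) + cnt (κ (i + 1)).2.2 l =
      (if l = (κ (i + 2)).1 then 1 else 0) + cnt (κ (i + 2)).2.2 l := by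
    intro i l
    have h1 := hN l (q i)
    rw [Finset.sum_filter, Finset.sum_eq_single i] at h1
    · simp only [if_true] at h1
      linarith
    · intro i' _ hne
      rw [if_neg]
      intro h2
      exact hne (hqinj h2)
    · simp
  have hother := other q (fun i b => chi (κ (i + 1)).2.2 b - chi (κ (i + 2)).2.2 b) hR
  -- comparison of the occurrences of the γ
  have hγ : ∀ (i i' : Fin 3) (b b' : Idx g r) (l : Fin r),
      q i' + eγ b'.1 + eU {b'} = q i + eγ b.1 + eU {b} →
      (if l = (κ i').1 then 1 else 0) + (if l = b'.1 then 1 else 0) =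
      (if l = (κ i).1 then 1 else 0) + (if l = b.1 then 1 else 0) := by
    intro i i' b b' l h
    have := congrFun h (Sum.inr (Sum.inr l))
    simpa [hq, eγ, eU] using this
  have hS2 : ∀ (i : Fin 3) (b : Idx g r), b.1 ≠ (κ (i + 1)).1 → b.1 ≠ (κ (i + 2)).1 →
      (κ i).1 ≠ (κ (i + 1)).1 → (κ i).1 ≠ (κ (i + 2)).1 →
      (b ∈ (κ (i + 1)).2.2 ↔ b ∈ (κ (i + 2)).2.2) := by
    intro i b h1 h2 h3 h4
    by_contra hcon
    obtain ⟨i', b', hne, he, -⟩ := hother i b (by
      intro h5
      apply hcon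
      exact chi_eq_iff.1 (by linarith))
    rcases fin3_cases i i' with rfl | rfl | rfl
    · have h5 : eγ b'.1 + eU {b'} = eγ b.1 + eU {b} := cancel3 he
      exact hne (Prod.ext rfl (Finset.singleton_injective (eγU_inj h5).2))
    · have h5 := hγ _ _ _ _ (κ (i + 1)).1 he
      simp [h3.symm, h1.symm] at h5
    · have h5 := hγ _ _ _ _ (κ (i + 2)).1 he
      simp [h4.symm, h2.symm] at h5
  by_contra hcon
  -- an index different from both others
  obtain ⟨o, ho1, ho2⟩ : ∃ o, (κ o).1 ≠ (κ (o + 1)).1 ∧ (κ o).1 ≠ (κ (o + 2)).1 := by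
    by_contra hno
    push Not at hno
    have hall : ∀ o, (κ o).1 = (κ (o + 1)).1 := by
      intro o
      by_contra h1
      have h2 := hno o h1
      have h3 := hno (o + 1)
      rw [fin3_a, fin3_b] at h3
      have h4 : (κ (o + 1)).1 ≠ (κ (o + 2)).1 := fun h => h1 (h2.trans h.symm)
      exact h1 (h3 h4).symm
    apply hcon
    rcases fin3_cases i i' with rfl | rfl | rfl
    · rfl
    · exact hall _
    · rw [hall, hall, fin3_a]
  by_cases h12 : (κ (o + 1)).1 = (κ (o + 2)).1
  · have hBB : (κ (o + 1)).2.2 = (κ (o + 2)).2.2 := by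
      ext b
      by_cases hb : b.1 = (κ (o + 1)).1
      · constructor
        · intro h; exact absurd hb (hB _ b h)
        · intro h; exact absurd (hb.trans h12) (hB _ b h)
      · exact hS2 o b hb (by rw [← h12]; exact hb) ho1 ho2
    exact fin3_ne3 o (hyd _ _ h12 hBB)
  -- the three blocks are different
  have hcnt0 : ∀ i, cnt (κ i).2.2 (κ i).1 = 0 := by
    intro i
    simp only [cnt, Nat.cast_eq_zero, Finset.card_eq_zero]
    rw [Finset.filter_eq_empty_iff]
    intro b hb
    exact hB i b hb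
  -- the element b1 of the block of o
  have hb1 : ∃ b1 : Idx g r, b1.1 = (κ o).1 ∧ ∀ b : Idx g r, b.1 = (κ o).1 →
      (b ∈ (κ (o + 1)).2.2 ↔ b = b1) := by
    have h1 := hN1 (o + 2) (κ o).1
    rw [fin3_c, fin3_d, hcnt0] at h1
    simp only [if_true, ho1, if_false] at h1
    have h2 : ((κ (o + 1)).2.2.filter (fun b => b.1 = (κ o).1)).card = 1 := by
      unfold cnt at h1
      omega
    obtain ⟨b1, h3⟩ := Finset.card_eq_one.1 h2
    have h4 : b1 ∈ (κ (o + 1)).2.2.filter (fun b => b.1 = (κ o).1) := by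
      rw [h3]; exact Finset.mem_singleton_self _
    refine ⟨b1, (Finset.mem_filter.1 h4).2, fun b hb => ?_⟩
    constructor
    · intro h5
      have : b ∈ (κ (o + 1)).2.2.filter (fun b => b.1 = (κ o).1) :=
        Finset.mem_filter.2 ⟨h5, hb⟩
      rw [h3] at this
      exact Finset.mem_singleton.1 this
    · rintro rfl
      exact (Finset.mem_filter.1 h4).1
  have hb2 : ∃ b2 : Idx g r, b2.1 = (κ (o + 1)).1 ∧ ∀ b : Idx g r, b.1 = (κ (o + 1)).1 →
      (b ∈ (κ (o + 2)).2.2 ↔ b = b2) := by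
    have h1 := hN1 o (κ (o + 1)).1
    rw [hcnt0] at h1
    simp only [if_true, h12, if_false] at h1
    have h2 : ((κ (o + 2)).2.2.filter (fun b => b.1 = (κ (o + 1)).1)).card = 1 := by
      unfold cnt at h1
      omega
    obtain ⟨b1, h3⟩ := Finset.card_eq_one.1 h2
    have h4 : b1 ∈ (κ (o + 2)).2.2.filter (fun b => b.1 = (κ (o + 1)).1) := by
      rw [h3]; exact Finset.mem_singleton_self _
    refine ⟨b1, (Finset.mem_filter.1 h4).2, fun b hb => ?_⟩
    constructor
    · intro h5
      have : b ∈ (κ (o + 2)).2.2.filter (fun b => b.1 = (κ (o + 1)).1) :=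
        Finset.mem_filter.2 ⟨h5, hb⟩
      rw [h3] at this
      exact Finset.mem_singleton.1 this
    · rintro rfl
      exact (Finset.mem_filter.1 h4).1
  obtain ⟨b1, hb1j, hb1⟩ := hb1
  obtain ⟨b2, hb2j, hb2⟩ := hb2
  have hb12 : b1 ≠ b2 := by
    rintro rfl
    exact ho1 (hb1j.symm.trans hb2j)
  -- comparisons from (S2)
  have hs0 : ∀ b : Idx g r, b.1 ≠ (κ (o + 1)).1 → b.1 ≠ (κ (o + 2)).1 →
      (b ∈ (κ (o + 1)).2.2 ↔ b ∈ (κ (o + 2)).2.2) := fun b h1 h2 => hS2 o b h1 h2 ho1 ho2
  have hs1 : ∀ b : Idx g r, b.1 ≠ (κ (o + 2)).1 → b.1 ≠ (κ o).1 →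
      (b ∈ (κ (o + 2)).2.2 ↔ b ∈ (κ o).2.2) := by
    intro b h1 h2
    have := hS2 (o + 1) b
    rw [fin3_a, fin3_b] at this
    exact this h1 h2 h12 ho1.symm
  have hs2 : ∀ b : Idx g r, b.1 ≠ (κ o).1 → b.1 ≠ (κ (o + 1)).1 →
      (b ∈ (κ o).2.2 ↔ b ∈ (κ (o + 1)).2.2) := by
    intro b h1 h2
    have := hS2 (o + 2) b
    rw [fin3_c, fin3_d] at this
    exact this h1 h2 ho2.symm (fun h => h12 h.symm)
  have hBstar : insert b1 (κ o).2.2 = insert b2 (κ (o + 1)).2.2 := by
    ext a
    rw [Finset.mem_insert, Finset.mem_insert]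
    by_cases h1 : a.1 = (κ o).1
    · have h2 : a ∉ (κ o).2.2 := fun h => hB o a h h1
      have h3 : a ≠ b2 := by
        rintro rfl
        exact ho1 (h1.symm.trans hb2j)
      have h4 := hb1 a h1
      tauto
    · by_cases h2 : a.1 = (κ (o + 1)).1
      · have h3 : a ∉ (κ (o + 1)).2.2 := fun h => hB (o + 1) a h h2
        have h4 : a ≠ b1 := by
          rintro rfl
          exact h1 hb1j
        have h5 := hb2 a h2
        have h6 := hs1 a (by rw [h2]; exact h12) h1
        tauto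
      · have h3 : a ≠ b1 := by
          rintro rfl
          exact h1 hb1j
        have h4 : a ≠ b2 := by
          rintro rfl
          exact h2 hb2j
        have h5 := hs2 a h1 h2
        tauto
  -- the accompanying term
  have hAstar : insert b1 (κ o).2.1 = insert b2 (κ (o + 1)).2.1 := by
    obtain ⟨i', b', hne, he, hd⟩ := hother o b2 (by
      intro h5
      have h6 : b2 ∈ (κ (o + 1)).2.2 ↔ b2 ∈ (κ (o + 2)).2.2 := chi_eq_iff.1 (by linarith)
      have h7 : b2 ∉ (κ (o + 1)).2.2 := fun h => hB (o + 1) b2 h hb2j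
      exact h7 (h6.2 ((hb2 b2 hb2j).2 rfl)))
    rcases fin3_cases o i' with rfl | rfl | rfl
    · have h5 : eγ b'.1 + eU {b'} = eγ b2.1 + eU {b2} := cancel3 he
      exact (hne (Prod.ext rfl (Finset.singleton_injective (eγU_inj h5).2))).elim
    · have h5 := hγ _ _ _ _ (κ o).1 he
      rw [hb2j] at h5
      simp only [ho1, if_false, if_true] at h5
      have h6 : b'.1 = (κ o).1 := by
        by_contra h7
        have : ¬ (κ o).1 = b'.1 := fun h => h7 h.symm
        simp [this] at h5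
      have h7 : b' = b1 := by
        rw [fin3_a, fin3_b] at hd
        have h8 : ¬ (b' ∈ (κ (o + 2)).2.2 ↔ b' ∈ (κ o).2.2) := fun h => hd (by
          have := chi_eq_iff.2 h
          linarith)
        have h9 : b' ∉ (κ o).2.2 := fun h => hB o b' h h6
        have h10 : b' ∈ (κ (o + 2)).2.2 := by tauto
        exact (hb1 b' h6).1 ((hs0 b' (by rw [h6]; exact ho1) (by rw [h6]; exact ho2)).2 h10)
      subst h7
      have h8 : ∀ a, (if a ∈ (κ (o + 1)).2.1 then 0 else 1) + (if a = b' then 1 else 0) =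
          (if a ∈ (κ o).2.1 then 0 else 1) + (if a = b2 then 1 else 0) := by
        intro a
        have h9 := congrFun he (Sum.inl a)
        simpa [hq, eγ, eU, ite_not] using h9
      exact star_aux hb12 h8
    · have h5 := hγ _ _ _ _ (κ (o + 2)).1 he
      rw [hb2j] at h5
      simp [ho2.symm, Ne.symm h12] at h5
  -- both candidates are on the grid line
  have hl1 := cand_on hx0 hb1j (fun h => hA o b1 h hb1j) (fun h => hB o b1 h hb1j)
  have hl2 := cand_on hx0 hb2j (fun h => hA (o + 1) b2 h hb2j) (fun h => hB (o + 1) b2 h hb2j)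
  rw [← hAstar, ← hBstar] at hl2
  have h1 := hon o
  have h2 := hon (o + 1)
  have h3 : (par x).γ (κ o).1 / (par x).U (κ o).2.1 ≠
      (par x).γ (κ (o + 1)).1 / (par x).U (κ (o + 1)).2.1 := by
    intro h
    exact ho1 (xlevel hx0 hx _ _ _ _ h).1
  have h4 : (μ - (par x).U (insert b1 (κ o).2.1)) *
      ((par x).γ (κ o).1 / (par x).U (κ o).2.1 -
        (par x).γ (κ (o + 1)).1 / (par x).U (κ (o + 1)).2.1) = 0 := by
    linear_combination hl1 - hl2 - h1 + h2
  rcases mul_eq_zero.1 h4 with h5 | h5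
  · have h6 : μ = (par x).U (insert b1 (κ o).2.1) := by linarith
    refine hgrid _ (insert b1 (κ o).2.2) ⟨h6, ?_⟩
    rw [← h6] at hl1
    linarith
  · exact h3 (by linarith)

/-- collinear candidates -/
theorem collin {x : Vr g r → ℝ} (hx0 : ∀ v, 0 < x v) (hx : Ind x) (hg : 2 ≤ g) (μ ν : ℝ)
    (hμ : μ ≠ 0) (hgrid : ∀ A B, ¬ (μ = (par x).U A ∧ ν = (par x).V B))
    (K : Finset (Fin r × Finset (Idx g r) × Finset (Idx g r)))
    (hK : ∀ κ ∈ K, Free κ.1 κ.2.1 ∧ Free κ.1 κ.2.2 ∧
      ((par x).cand κ.1 κ.2.1 κ.2.2).2 = μ * ((par x).cand κ.1 κ.2.1 κ.2.2).1 + ν) :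
    K.card ≤ g := by
  by_cases hc : K.card ≤ 2
  · omega
  push Not at hc
  have hon : ∀ κ ∈ K, (par x).α κ.1 + (par x).V κ.2.2 =
      μ * ((par x).γ κ.1 / (par x).U κ.2.1) + ν := fun κ hκ => (hK κ hκ).2.2
  have hj : ∀ κ ∈ K, ∀ κ' ∈ K, κ.1 = κ'.1 := by
    intro k1 h1 k2 h2
    by_cases h12 : k1 = k2
    · rw [h12]
    obtain ⟨k3, h3, h31, h32⟩ : ∃ k3 ∈ K, k3 ≠ k1 ∧ k3 ≠ k2 := by
      have : 0 < ((K.erase k1).erase k2).card := by
        rw [Finset.card_erase_of_mem (Finset.mem_erase.2 ⟨fun h => h12 h.symm, h2⟩),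
          Finset.card_erase_of_mem h1]
        omega
      obtain ⟨l3, h3⟩ := Finset.card_pos.1 this
      rw [Finset.mem_erase, Finset.mem_erase] at h3
      exact ⟨l3, h3.2.2, h3.2.1, h3.1⟩
    have hmem : ∀ i : Fin 3, ![k1, k2, k3] i ∈ K := by
      intro i
      fin_cases i
      · exact h1
      · exact h2
      · exact h3
    have hinj : Function.Injective ![k1, k2, k3] := by
      intro i i' hii
      by_contra hne
      fin_cases i <;> fin_cases i' <;>
        simp only [Fin.zero_eta, Fin.mk_one, Fin.reduceFinMk, Fin.isValue,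
          not_true_eq_false, Matrix.cons_val_zero, Matrix.cons_val_one, Matrix.cons_val] at hii hne
      · exact h12 hii
      · exact h31 hii.symm
      · exact h12 hii.symm
      · exact h32 hii.symm
      · exact h31 hii
      · exact h32 hii
    exact claimS hx0 hx hμ hgrid ![k1, k2, k3] hinj (fun i => (hK _ (hmem i)).1)
      (fun i => (hK _ (hmem i)).2.1) (fun i => hon _ (hmem i)) 0 1
  have hcard : (K.image (fun κ => ((κ.2.1)ᶜ, κ.2.2))).card = K.card := by
    apply Finset.card_image_of_injOn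
    intro κ hκ κ' hκ' h
    have h1 := (Prod.mk.injEq _ _ _ _ ▸ h : (κ.2.1)ᶜ = (κ'.2.1)ᶜ ∧ κ.2.2 = κ'.2.2)
    exact Prod.ext (hj κ hκ κ' hκ') (Prod.ext (compl_injective h1.1) h1.2)
  rw [← hcard]
  apply conc hx hg
  · intro l hl l' hl' hne
    obtain ⟨κ, hκ, rfl⟩ := Finset.mem_image.1 hl
    obtain ⟨κ', hκ', rfl⟩ := Finset.mem_image.1 hl'
    have h1 := hon κ hκ
    have h2 := hon κ' hκ'
    have h3 := hj κ hκ κ' hκ'
    constructor
    · intro h4
      have h5 : κ.2.1 = κ'.2.1 := compl_injective h4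
      rw [h5, h3, ← h2] at h1
      have h6 := (ylevel hx _ _ _ _ h1).2
      apply hne
      simp only [h5, h6]
    · intro h4
      simp only at h4
      rw [h4, h3, h2] at h1
      have h5 := mul_left_cancel₀ hμ (add_right_cancel h1)
      have h6 := (xlevel hx0 hx _ _ _ _ h5).2
      apply hne
      simp only [h4, h6]
  · have hU : ∀ κ ∈ K, ∀ κ0 ∈ K, (par x).γ κ0.1 * (par x).U ((κ.2.1)ᶜ) =
        ((par x).γ κ.1 / (par x).U κ.2.1) * (par x).U Finset.univ := by
      intro κ hκ κ0 hκ0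
      have h1 : (par x).U Finset.univ = (par x).U κ.2.1 * (par x).U (κ.2.1)ᶜ :=
        (Finset.prod_mul_prod_compl _ _).symm
      have h2 := (U_pos hx0 κ.2.1).ne'
      rw [h1, hj κ0 hκ0 κ hκ]
      field_simp
    intro l1 hl1 l2 hl2 l3 hl3
    obtain ⟨k1, hk1, rfl⟩ := Finset.mem_image.1 hl1
    obtain ⟨k2, hk2, rfl⟩ := Finset.mem_image.1 hl2
    obtain ⟨k3, hk3, rfl⟩ := Finset.mem_image.1 hl3
    have a1 := hU k1 hk1 k1 hk1
    have a2 := hU k2 hk2 k1 hk1
    have a3 := hU k3 hk3 k1 hk1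
    have c1 := hon k1 hk1
    have c2 := hon k2 hk2
    have c3 := hon k3 hk3
    rw [hj k2 hk2 k1 hk1] at c2 a2
    rw [hj k3 hk3 k1 hk1] at c3 a3
    have hγ : (par x).γ k1.1 ≠ 0 := (hx0 _).ne'
    apply mul_left_cancel₀ hγ
    rw [mul_zero]
    simp only
    have d12 : (par x).V k2.2.2 - (par x).V k3.2.2 =
        μ * ((par x).γ k1.1 / (par x).U k2.2.1 - (par x).γ k1.1 / (par x).U k3.2.1) := by
      linear_combination c2 - c3
    have d23 : (par x).V k3.2.2 - (par x).V k1.2.2 =
        μ * ((par x).γ k1.1 / (par x).U k3.2.1 - (par x).γ k1.1 / (par x).U k1.2.1) := by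
      linear_combination c3 - c1
    have d31 : (par x).V k1.2.2 - (par x).V k2.2.2 =
        μ * ((par x).γ k1.1 / (par x).U k1.2.1 - (par x).γ k1.1 / (par x).U k2.2.1) := by
      linear_combination c1 - c2
    rw [d12, d23, d31]
    generalize (par x).γ k1.1 / (par x).U k1.2.1 = p1 at *
    generalize (par x).γ k1.1 / (par x).U k2.2.1 = p2 at *
    generalize (par x).γ k1.1 / (par x).U k3.2.1 = p3 at *
    linear_combination (μ * (p2 - p3)) * a1 + (μ * (p3 - p1)) * a2 + (μ * (p1 - p2)) * a3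

end GenPar

/-- Generic parameters exist. -/
theorem exists_generic (g r : ℕ) (hg : 2 ≤ g) : ∃ p : Par g r, p.Generic := by
  obtain ⟨x, hx0, hx⟩ := GenPar.exists_ind (GenPar.Vr g r)
  refine ⟨GenPar.par x, ?_⟩
  refine
    { u_pos := fun b => hx0 _
      γ_pos := fun j => hx0 _
      U_inj := ?_
      V_inj := ?_
      xlevel := fun j j' A A' _ _ h => GenPar.xlevel hx0 hx j j' A A' h
      ylevel := fun j j' B B' _ _ h => GenPar.ylevel hx j j' B B' h
      conc := fun L hL h => GenPar.conc hx hg L hL h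
      collin := fun μ ν hμ hgrid K hK => GenPar.collin hx0 hx hg μ ν hμ hgrid K hK }
  · intro A A' h
    have h1 : GenPar.mon x (GenPar.eU A) = GenPar.mon x (GenPar.eU A') := by
      rw [GenPar.mon_eU, GenPar.mon_eU]; exact h
    exact GenPar.eU_inj (hx.mon_inj (fun v => (GenPar.eU_le A v).trans (by omega))
      (fun v => (GenPar.eU_le A' v).trans (by omega)) h1)
  · intro B B' h
    exact (GenPar.key1 hx (fun _ => 0) B B' (by simp [h])).1

end KHole
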